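import Pool.Agent.H40.ISH.Stmts

/-!
Project ISH, module CMP: restoring the number of plus sites by flipping an initial segment of a
small cube.
-/

namespace Pool.ISH

open scoped Classical

theorem cmp_sub (z : Site) (l a : ℕ) (ha : 1 ≤ a) (hal : 100 * a ≤ l) (G : Site → Prop)
    (hG : 8 * ((cube z l).filter (fun x => G x)).card ≤ 2 * l ^ 3 + a ^ 3) :
    ∃ z', cube z' a ⊆ cube z l ∧ 16 * ((cube z' a).filter (fun x => G x)).card ≤ 7 * a ^ 3 := by
  by_contra hcon
  push Not at hcon
  obtain ⟨m, hm⟩ : ∃ m, m = l / a := ⟨_, rfl⟩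
  have hm1 : m * a ≤ l := by rw [hm]; exact Nat.div_mul_le_self l a
  have hm2 : l < m * a + a := by
    have := Nat.lt_div_mul_add (a := l) (b := a) (by omega)
    rw [← hm] at this
    exact this
  let idx : Finset (Fin 3 → ℕ) := Fintype.piFinset (fun _ : Fin 3 => Finset.range m)
  have hidx : idx.card = m ^ 3 := by
    simp [idx, Fintype.card_piFinset]
  let zz : (Fin 3 → ℕ) → Site := fun u i => z i + (a : ℤ) * (u i : ℤ)
  have hsub : ∀ u ∈ idx, cube (zz u) a ⊆ cube z l := by
    intro u hu x hx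
    rw [mem_cube] at hx ⊢
    intro i
    have h1 := hx i
    have h2 : u i < m := Finset.mem_range.1 (Fintype.mem_piFinset.1 hu i)
    have h3 : (u i : ℤ) + 1 ≤ m := by exact_mod_cast h2
    have h4 : zz u i = z i + (a : ℤ) * (u i : ℤ) := rfl
    have h5 : (0 : ℤ) ≤ (a : ℤ) * (u i : ℤ) := by positivity
    have h6 : (a : ℤ) * ((u i : ℤ) + 1) ≤ (a : ℤ) * m := by
      apply mul_le_mul_of_nonneg_left h3 (by positivity)
    have h7 : ((m * a : ℕ) : ℤ) ≤ (l : ℤ) := by exact_mod_cast hm1
    push_cast at h7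
    rw [h4] at h1
    constructor
    · linarith [h1.1]
    · nlinarith [h1.2]
  have hdis : ∀ u ∈ idx, ∀ v ∈ idx, u ≠ v → Disjoint ((cube (zz u) a).filter (fun x => G x))
      ((cube (zz v) a).filter (fun x => G x)) := by
    intro u _ v _ huv
    rw [Finset.disjoint_left]
    intro x hx hy
    apply huv
    rw [Finset.mem_filter, mem_cube] at hx hy
    funext i
    have h1 := hx.1 i
    have h2 := hy.1 i
    have h4 : zz u i = z i + (a : ℤ) * (u i : ℤ) := rfl
    have h5 : zz v i = z i + (a : ℤ) * (v i : ℤ) := rfl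
    rw [h4] at h1
    rw [h5] at h2
    have ha' : (1 : ℤ) ≤ a := by exact_mod_cast ha
    have h6 : (a : ℤ) * (u i : ℤ) < a * ((v i : ℤ) + 1) := by linarith [h1.1, h2.2]
    have h7 : (a : ℤ) * (v i : ℤ) < a * ((u i : ℤ) + 1) := by linarith [h1.2, h2.1]
    have h8 : (u i : ℤ) < (v i : ℤ) + 1 := lt_of_mul_lt_mul_left h6 (by linarith)
    have h9 : (v i : ℤ) < (u i : ℤ) + 1 := lt_of_mul_lt_mul_left h7 (by linarith)
    omega
  have hsum : ∑ u ∈ idx, ((cube (zz u) a).filter (fun x => G x)).card ≤
      ((cube z l).filter (fun x => G x)).card := by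
    rw [← Finset.card_biUnion (fun u hu v hv h => hdis u hu v hv h)]
    apply Finset.card_le_card
    intro x hx
    rw [Finset.mem_biUnion] at hx
    obtain ⟨u, hu, hx⟩ := hx
    rw [Finset.mem_filter] at hx ⊢
    exact ⟨hsub u hu hx.1, hx.2⟩
  have hlow : 7 * (m * a) ^ 3 ≤ 16 * ((cube z l).filter (fun x => G x)).card := by
    calc 7 * (m * a) ^ 3 = ∑ _u ∈ idx, 7 * a ^ 3 := by
          rw [Finset.sum_const, hidx, smul_eq_mul]; ring
      _ ≤ ∑ u ∈ idx, 16 * ((cube (zz u) a).filter (fun x => G x)).card :=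
          Finset.sum_le_sum (fun u hu => (hcon (zz u) (hsub u hu)).le)
      _ = 16 * ∑ u ∈ idx, ((cube (zz u) a).filter (fun x => G x)).card := by
          rw [Finset.mul_sum]
      _ ≤ _ := Nat.mul_le_mul_left _ hsum
  obtain ⟨b, hb⟩ : ∃ b, b = m * a := ⟨_, rfl⟩
  rw [← hb] at hlow hm2
  have h1 : 99 * l ≤ 100 * b := by omega
  have h2 : (99 * l) ^ 3 ≤ (100 * b) ^ 3 := Nat.pow_le_pow_left h1 3
  have h3 : (100 * a) ^ 3 ≤ l ^ 3 := Nat.pow_le_pow_left hal 3
  rw [mul_pow, mul_pow] at h2
  rw [mul_pow] at h3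
  have h4 : 0 < l ^ 3 := by
    apply Nat.pow_pos
    omega
  omega

theorem cmp_card (A1 Q : Finset Site) :
    (symmDiff A1 Q).card + 2 * (Q.filter (fun x => x ∈ A1)).card = A1.card + Q.card := by
  have h1 : (symmDiff A1 Q).card = (A1 \ Q).card + (Q \ A1).card := by
    rw [symmDiff_def, Finset.sup_eq_union, Finset.card_union_of_disjoint]
    exact disjoint_sdiff_sdiff
  have h2 : (A1 \ Q).card + (A1 ∩ Q).card = A1.card := Finset.card_sdiff_add_card_inter A1 Q
  have h3 : (Q \ A1).card + (Q ∩ A1).card = Q.card := Finset.card_sdiff_add_card_inter Q A1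
  have h4 : Q.filter (fun x => x ∈ A1) = Q ∩ A1 := Finset.filter_mem_eq_inter
  rw [h4]
  rw [Finset.inter_comm] at h2
  omega

theorem cmp (h : IVTStmt) : CMPStmt := by
  intro c hc
  refine ⟨c / 100, by positivity, ?_⟩
  intro N A F a hN hA hF hP h8 ha
  rcases Nat.eq_zero_or_pos a with ha0 | ha1
  · subst ha0
    have hF0 : F = ∅ := by
      rw [← Finset.card_eq_zero]
      have : (0 : ℕ) ^ 3 = 0 := by norm_num
      omega
    have hs : seg (0 : Site) 0 0 = ∅ := by
      unfold seg
      have : cube (0 : Site) 0 = ∅ := by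
        rw [← Finset.card_eq_zero, card_cube]; norm_num
      rw [this, Finset.filter_empty]
    refine ⟨0, ?_, 0, by norm_num, ?_, ?_⟩
    · rw [mem_Vb]; intro i; simp
    · rw [hs]; exact Finset.empty_subset _
    · rw [hs, hF0]; simp
  have key : ∀ s : Bool, ∃ z, cube z a ⊆ Vb N ∧
      16 * ((cube z a).filter (fun x => ¬ (x ∈ symmDiff A F ↔ s = true))).card ≤ 7 * a ^ 3 := by
    intro s
    obtain ⟨z, l, hl, hsub, hc3⟩ := hP s
    have hal : 100 * a ≤ l := by
      have : (100 * a : ℝ) ≤ l := by linarith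
      exact_mod_cast this
    have hb : 8 * ((cube z l).filter (fun x => ¬ (x ∈ symmDiff A F ↔ s = true))).card ≤
        2 * l ^ 3 + a ^ 3 := by
      have h1 : (cube z l).filter (fun x => ¬ (x ∈ symmDiff A F ↔ s = true)) ⊆
          (cube z l).filter (fun x => ¬ (x ∈ A ↔ s = true)) ∪ F := by
        intro x hx
        rw [Finset.mem_filter] at hx
        rw [Finset.mem_union, Finset.mem_filter]
        by_cases hxF : x ∈ F
        · exact Or.inr hxF
        · left
          refine ⟨hx.1, fun hh => hx.2 ?_⟩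
          rw [Finset.mem_symmDiff]
          tauto
      have h2 := Finset.card_le_card h1
      have h3 := Finset.card_union_le ((cube z l).filter (fun x => ¬ (x ∈ A ↔ s = true))) F
      have h4 : ((cube z l).filter (fun x => (x ∈ A ↔ s = true))).card +
          ((cube z l).filter (fun x => ¬ (x ∈ A ↔ s = true))).card = l ^ 3 := by
        rw [Finset.card_filter_add_card_filter_not, card_cube]
      omega
    obtain ⟨z', h1, h2⟩ := cmp_sub z l a ha1 hal (fun x => ¬ (x ∈ symmDiff A F ↔ s = true))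
      (by convert hb)
    refine ⟨z', h1.trans hsub, ?_⟩
    convert h2
  have hFle1 : (symmDiff A F).card ≤ A.card + F.card := by
    refine (Finset.card_le_card ?_).trans (Finset.card_union_le A F)
    intro x hx
    rw [Finset.mem_symmDiff] at hx
    rw [Finset.mem_union]
    tauto
  have hFle2 : A.card ≤ (symmDiff A F).card + F.card := by
    refine (Finset.card_le_card ?_).trans (Finset.card_union_le (symmDiff A F) F)
    intro x hx
    rw [Finset.mem_union, Finset.mem_symmDiff]
    tauto
  have fin : ∀ z, cube z a ⊆ Vb N →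
      (((symmDiff A F).card ≤ A.card ∧ A.card ≤ (symmDiff (symmDiff A F) (cube z a)).card) ∨
      ((symmDiff (symmDiff A F) (cube z a)).card ≤ A.card ∧ A.card ≤ (symmDiff A F).card)) →
      ∃ z ∈ Vb N, ∃ k ≤ a ^ 3, seg z a k ⊆ Vb N ∧
        (symmDiff (symmDiff A F) (seg z a k)).card = A.card := by
    intro z hz hh
    obtain ⟨k, hk, hk2⟩ := h z a (symmDiff A F) A.card hh
    refine ⟨z, hz ?_, k, hk, ?_, hk2⟩
    · rw [mem_cube]
      intro i
      have : (1 : ℤ) ≤ a := by exact_mod_cast ha1
      constructor <;> linarith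
    · exact (Finset.filter_subset _ _).trans hz
  rcases le_total A.card (symmDiff A F).card with hle | hle
  · obtain ⟨z, hz, hz2⟩ := key true
    refine fin z hz (Or.inr ⟨?_, hle⟩)
    have h1 := cmp_card (symmDiff A F) (cube z a)
    have h2 : ((cube z a).filter (fun x => x ∈ symmDiff A F)).card +
        ((cube z a).filter (fun x => ¬ (x ∈ symmDiff A F ↔ true = true))).card = a ^ 3 := by
      have e : ((cube z a).filter (fun x => ¬ (x ∈ symmDiff A F ↔ true = true))) =
          ((cube z a).filter (fun x => ¬ x ∈ symmDiff A F)) := by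
        apply Finset.filter_congr
        intro x _
        simp
      rw [e, Finset.card_filter_add_card_filter_not, card_cube]
    rw [card_cube] at h1
    omega
  · obtain ⟨z, hz, hz2⟩ := key false
    refine fin z hz (Or.inl ⟨hle, ?_⟩)
    have h1 := cmp_card (symmDiff A F) (cube z a)
    have e : ((cube z a).filter (fun x => ¬ (x ∈ symmDiff A F ↔ false = true))) =
        ((cube z a).filter (fun x => x ∈ symmDiff A F)) := by
      apply Finset.filter_congr
      intro x _
      simp
    rw [e] at hz2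
    rw [card_cube] at h1
    omega

end Pool.ISH
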